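import Pool.Agent.W96.CL.Stm
set_option autoImplicit false
open Polynomial
namespace W96CL
namespace H461F

lemma om_sum : om ^ 2 + om + 1 = 0 := by
  have h3 : Real.sqrt 3 * Real.sqrt 3 = 3 := Real.mul_self_sqrt (by norm_num)
  apply Complex.ext
  · simp [om, pow_two]
    nlinarith [h3]
  · simp [om, pow_two]
    ring

lemma om3 : om ^ 3 = 1 := by
  linear_combination (om - 1) * om_sum

lemma om_ne : om ≠ 0 := by
  intro h
  have := om3
  rw [h] at this
  norm_num at this

/-- rotated complexification -/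
noncomputable def R (p : ℝ[X]) (j : ℕ) : ℂ[X] := (p.map (algebraMap ℝ ℂ)).comp (C (om ^ j) * X)

lemma eval_R (p : ℝ[X]) (j : ℕ) (x : ℂ) : (R p j).eval x = aeval (om ^ j * x) p := by
  unfold R
  rw [eval_comp, eval_mul, eval_C, eval_X, eval_map_algebraMap]

lemma coeff_R (p : ℝ[X]) (j k : ℕ) : (R p j).coeff k = (p.coeff k : ℂ) * (om ^ j) ^ k := by
  unfold R
  rw [comp_C_mul_X_coeff, coeff_map]
  rfl

lemma R_ne (p : ℝ[X]) (j : ℕ) (h : p ≠ 0) : R p j ≠ 0 := by
  intro h0
  apply h
  ext k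
  have h1 := congrArg (fun q : ℂ[X] => q.coeff k) h0
  simp only [coeff_R, coeff_zero, mul_eq_zero] at h1
  rcases h1 with h1 | h1
  · exact_mod_cast h1
  · exact absurd h1 (pow_ne_zero _ (pow_ne_zero _ om_ne))

lemma R_zero (p : ℝ[X]) : R p 0 = p.map (algebraMap ℝ ℂ) := by
  simp [R]

lemma natDegree_R (p : ℝ[X]) (j : ℕ) : (R p j).natDegree ≤ p.natDegree := by
  rw [natDegree_le_iff_coeff_eq_zero]
  intro N hN
  rw [coeff_R, coeff_eq_zero_of_natDegree_lt hN]
  simp

lemma half (m : Multiset ℂ) (h : ∀ a, Even (m.count a)) : ∃ s : Multiset ℂ, m = s + s := by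
  classical
  refine ⟨∑ a ∈ m.toFinset, (m.count a / 2) • ({a} : Multiset ℂ), ?_⟩
  rw [← Finset.sum_add_distrib]
  conv_lhs => rw [← Multiset.toFinset_sum_count_nsmul_eq m]
  apply Finset.sum_congr rfl
  intro a _
  rw [← add_nsmul]
  congr 1
  obtain ⟨k, hk⟩ := h a
  omega

/-- a monic complex polynomial all of whose roots have even multiplicity is a square -/
lemma sqrt_exists (W : ℂ[X]) (hW : W.Monic) (h : ∀ a, Even (W.rootMultiplicity a)) :
    ∃ Q : ℂ[X], Q.Monic ∧ W = Q ^ 2 := by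
  classical
  obtain ⟨s, hs⟩ := half W.roots (fun a => by rw [count_roots]; exact h a)
  refine ⟨(s.map fun a => X - C a).prod, monic_multiset_prod_of_monic _ _ (fun a _ => monic_X_sub_C a), ?_⟩
  have h1 : W = (W.roots.map fun a => X - C a).prod := by
    have := (IsAlgClosed.splits W).eq_prod_roots
    rw [hW.leadingCoeff, C_1, one_mul] at this
    exact this
  rw [h1, hs, Multiset.map_add, Multiset.prod_add, pow_two]

lemma monic_sq_inj (A B : ℂ[X]) (hA : A.Monic) (hB : B.Monic) (h : A ^ 2 = B ^ 2) : A = B := by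
  rcases sq_eq_sq_iff_eq_or_eq_neg.mp h with h1 | h1
  · exact h1
  · exfalso
    have := congrArg leadingCoeff h1
    rw [leadingCoeff_neg, hA.leadingCoeff, hB.leadingCoeff] at this
    norm_num at this

lemma real_of_sq (W : ℝ[X]) (Q : ℂ[X]) (hQ : Q.Monic) (h : W.map (algebraMap ℝ ℂ) = Q ^ 2) :
    ∃ P : ℝ[X], P.Monic ∧ P.map (algebraMap ℝ ℂ) = Q ∧ W = P ^ 2 := by
  have hc : Q.map (starRingEnd ℂ) = Q := by
    apply monic_sq_inj _ _ (hQ.map _) hQ
    rw [← Polynomial.map_pow, ← h, Polynomial.map_map]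
    congr 1
    ext x
    simp
  have hl : Q ∈ lifts (algebraMap ℝ ℂ) := by
    rw [lifts_iff_coeff_lifts]
    intro k
    have h1 : (starRingEnd ℂ) (Q.coeff k) = Q.coeff k := by
      conv_rhs => rw [← hc, coeff_map]
    rw [Complex.conj_eq_iff_real] at h1
    obtain ⟨r, hr⟩ := h1
    exact ⟨r, by simpa using hr.symm⟩
  obtain ⟨P, hP⟩ := (mem_lifts _).mp hl
  have hinj : Function.Injective (algebraMap ℝ ℂ) := (algebraMap ℝ ℂ).injective
  refine ⟨P, ?_, hP, ?_⟩
  · rw [← hP] at hQ
    exact (hinj.monic_map_iff).mpr hQ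
  · apply map_injective _ hinj
    rw [h, Polynomial.map_pow, hP]

lemma phi_factor_ne (θ : ℝ) : (1 + C (2 * Real.cos θ) * X + X ^ 2 : ℝ[X]).Monic := by
  have : (1 + C (2 * Real.cos θ) * X + X ^ 2 : ℝ[X]) =
      X ^ 2 + (C (2 * Real.cos θ) * X + 1) := by ring
  rw [this]
  apply monic_X_pow_add
  compute_degree!

lemma phi_monic (n : ℕ) (θ : ℝ) : (phi n θ).Monic := (phi_factor_ne θ).pow _

lemma phi_natDegree (n : ℕ) (θ : ℝ) : (phi n θ).natDegree = 4 * n := by
  have h2 : (1 + C (2 * Real.cos θ) * X + X ^ 2 : ℝ[X]).natDegree = 2 := by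
    compute_degree!
  unfold phi
  rw [(phi_factor_ne θ).natDegree_pow, h2]
  ring

lemma phi_coeff_zero (n : ℕ) (θ : ℝ) : (phi n θ).coeff 0 = 1 := by
  rw [coeff_zero_eq_eval_zero]
  simp [phi]

/-- degree and leading coefficient of `V`, value at `0` -/
lemma V_facts (n : ℕ) (θ : ℝ) (t V : ℝ[X]) (hr : Rel n θ t)
    (h2 : ∀ x : ℂ, aeval (om * x) t * aeval (om ^ 2 * x) t =
      aeval (om * x) (phi n θ) * aeval (om ^ 2 * x) (phi n θ) + aeval x (phi n θ) * aeval x V) :
    V.natDegree = 4 * n ∧ V.leadingCoeff = 3 ∧ V.coeff 0 = 3 := by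
  have hpoly : R t 1 * R t 2 = R (phi n θ) 1 * R (phi n θ) 2 + R (phi n θ) 0 * R V 0 := by
    apply Polynomial.funext
    intro x
    simp only [eval_mul, eval_add, eval_R, pow_one, pow_zero, one_mul]
    exact h2 x
  have hz := congrArg (fun q : ℂ[X] => q.coeff 0) hpoly
  simp only [mul_coeff_zero, coeff_add, coeff_R, pow_zero, mul_one, hr.zero, phi_coeff_zero] at hz
  have hV0 : V.coeff 0 = 3 := by
    have : (V.coeff 0 : ℂ) = 3 := by
      push_cast at hz
      linear_combination -hz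
    exact_mod_cast this
  have hdt : ∀ j, (R t j).natDegree ≤ 4 * n := fun j => (natDegree_R t j).trans hr.deg
  have hdp : ∀ j, (R (phi n θ) j).natDegree ≤ 4 * n := fun j =>
    (natDegree_R _ j).trans (phi_natDegree n θ).le
  have ht4 : t.coeff (4 * n) = -2 := by
    rw [← hr.zero, hr.pal 0 (Nat.zero_le _)]
    simp
  have hp4 : (phi n θ).coeff (4 * n) = 1 := by
    rw [← phi_natDegree n θ]
    exact phi_monic n θ
  have hom12 : (om ^ 1) ^ (4 * n) * (om ^ 2) ^ (4 * n) = 1 := by
    rw [← mul_pow, ← pow_add, ← pow_mul]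
    norm_num
    rw [pow_mul, om3, one_pow]
  -- the product `P₀ V₀`
  have hPV : R (phi n θ) 0 * R V 0 = R t 1 * R t 2 - R (phi n θ) 1 * R (phi n θ) 2 := by
    rw [hpoly]; ring
  have hdeg1 : (R (phi n θ) 0 * R V 0).natDegree ≤ 4 * n + 4 * n := by
    rw [hPV]
    refine (natDegree_sub_le _ _).trans (max_le ?_ ?_)
    · exact natDegree_mul_le_of_le (hdt 1) (hdt 2)
    · exact natDegree_mul_le_of_le (hdp 1) (hdp 2)
  have hco : (R (phi n θ) 0 * R V 0).coeff (4 * n + 4 * n) = 3 := by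
    rw [hPV, coeff_sub, coeff_mul_add_eq_of_natDegree_le (hdt 1) (hdt 2),
      coeff_mul_add_eq_of_natDegree_le (hdp 1) (hdp 2), coeff_R, coeff_R, coeff_R, coeff_R, ht4, hp4]
    push_cast
    linear_combination 3 * hom12
  have hd : (R (phi n θ) 0 * R V 0).natDegree = 4 * n + 4 * n :=
    le_antisymm hdeg1 (le_natDegree_of_ne_zero (by rw [hco]; norm_num))
  have hV0' : V ≠ 0 := by
    intro h
    rw [h] at hV0
    norm_num at hV0
  have hRV : (R V 0).natDegree = V.natDegree := by
    rw [R_zero]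
    exact natDegree_map _
  have hRP : (R (phi n θ) 0).natDegree = 4 * n := by
    rw [R_zero, natDegree_map]
    exact phi_natDegree n θ
  rw [natDegree_mul (R_ne _ _ (phi_monic n θ).ne_zero) (R_ne _ _ hV0'), hRV, hRP] at hd
  have hdV : V.natDegree = 4 * n := by omega
  refine ⟨hdV, ?_, hV0⟩
  have h5 : (R (phi n θ) 0 * R V 0).coeff (4 * n + 4 * n) =
      (R (phi n θ) 0).coeff (4 * n) * (R V 0).coeff (4 * n) :=
    coeff_mul_add_eq_of_natDegree_le hRP.le (by rw [hRV, hdV])
  rw [hco, coeff_R, coeff_R, hp4] at h5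
  have h6 : (V.coeff (4 * n) : ℂ) = 3 := by
    rw [h5]
    simp
  have h7 : V.coeff (4 * n) = 3 := by exact_mod_cast h6
  rw [leadingCoeff, hdV, h7]

lemma aux_even (A B K : ℂ[X]) (hA : A ≠ 0) (hB : B ≠ 0) (h : A * B = K ^ 2) (a : ℂ)
    (hb : B.eval a ≠ 0) : Even (A.rootMultiplicity a) := by
  have h1 : (A * B).rootMultiplicity a = A.rootMultiplicity a + B.rootMultiplicity a :=
    rootMultiplicity_mul (mul_ne_zero hA hB)
  have h2 : B.rootMultiplicity a = 0 := rootMultiplicity_eq_zero hb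
  have hK : K ≠ 0 := by
    intro hK
    rw [hK] at h
    simp at h
    rcases h with h | h
    · exact hA h
    · exact hB h
  have h3 : (K ^ 2).rootMultiplicity a = 2 * K.rootMultiplicity a := by
    rw [pow_two, rootMultiplicity_mul (mul_ne_zero hK hK)]
    ring
  rw [h, h3, h2] at h1
  exact ⟨K.rootMultiplicity a, by omega⟩

end H461F

open H461F in
theorem cl_fact : S_fact := by
  intro n θ t V _ _ _ hr h2 h3
  obtain ⟨hVd, hVl, hVz⟩ := V_facts n θ t V hr h2
  set k : ℝ[X] := phi n θ - t with hk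
  have ek : ∀ x : ℂ, aeval x k = aeval x (phi n θ) - aeval x t := fun x => by rw [hk, map_sub]
  have hk0 : k.coeff 0 = 3 := by
    rw [hk, coeff_sub, hr.zero, phi_coeff_zero]; norm_num
  have hkne : k ≠ 0 := by
    intro h; rw [h] at hk0; norm_num at hk0
  have hVne : V ≠ 0 := by
    intro h; rw [h] at hVz; norm_num at hVz
  have hPne : phi n θ ≠ 0 := (phi_monic n θ).ne_zero
  -- `k₀ V₀ = k₁ k₂`
  have hA : R k 0 * R V 0 = R k 1 * R k 2 := by
    have hP0 := R_ne (phi n θ) 0 hPne
    apply mul_left_cancel₀ hP0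
    apply Polynomial.funext
    intro x
    simp only [eval_mul, eval_R, pow_one, pow_zero, one_mul, ek]
    have e2 := h2 x
    have e3 := hr.three x
    linear_combination (aeval x t - aeval x (phi n θ)) * e2 - e3
  have hAx : ∀ x : ℂ, aeval x k * aeval x V = aeval (om * x) k * aeval (om ^ 2 * x) k := by
    intro x
    have := congrArg (fun q : ℂ[X] => q.eval x) hA
    simpa only [eval_mul, eval_R, pow_one, pow_zero, one_mul] using this
  have rot : ∀ x : ℂ, om * (om * x) = om ^ 2 * x := fun x => by ring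
  have rot2 : ∀ x : ℂ, om ^ 2 * (om * x) = x := fun x => by
    calc om ^ 2 * (om * x) = om ^ 3 * x := by ring
      _ = x := by rw [om3, one_mul]
  have rot3 : ∀ x : ℂ, om * (om ^ 2 * x) = x := fun x => by
    calc om * (om ^ 2 * x) = om ^ 3 * x := by ring
      _ = x := by rw [om3, one_mul]
  have rot4 : ∀ x : ℂ, om ^ 2 * (om ^ 2 * x) = om * x := fun x => by
    calc om ^ 2 * (om ^ 2 * x) = om ^ 3 * (om * x) := by ring
      _ = om * x := by rw [om3, one_mul]
  have hBx : ∀ x : ℂ, aeval (om * x) k * aeval (om * x) V = aeval (om ^ 2 * x) k * aeval x k := by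
    intro x
    have := hAx (om * x)
    rwa [rot, rot2] at this
  have hCx : ∀ x : ℂ, aeval (om ^ 2 * x) k * aeval (om ^ 2 * x) V = aeval x k * aeval (om * x) k := by
    intro x
    have := hAx (om ^ 2 * x)
    rwa [rot3, rot4] at this
  have hk2 : R V 0 * R V 1 = R k 2 ^ 2 := by
    apply mul_left_cancel₀ (mul_ne_zero (R_ne k 0 hkne) (R_ne k 1 hkne))
    apply Polynomial.funext
    intro x
    simp only [eval_mul, eval_pow, eval_R, pow_one, pow_zero, one_mul]
    linear_combination (aeval (om * x) k * aeval (om * x) V) * hAx x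
      + (aeval (om * x) k * aeval (om ^ 2 * x) k) * hBx x
  have hk1 : R V 0 * R V 2 = R k 1 ^ 2 := by
    apply mul_left_cancel₀ (mul_ne_zero (R_ne k 0 hkne) (R_ne k 2 hkne))
    apply Polynomial.funext
    intro x
    simp only [eval_mul, eval_pow, eval_R, pow_one, pow_zero, one_mul]
    linear_combination (aeval (om ^ 2 * x) k * aeval (om ^ 2 * x) V) * hAx x
      + (aeval (om * x) k * aeval (om ^ 2 * x) k) * hCx x
  have hev : ∀ a : ℂ, Even ((R V 0).rootMultiplicity a) := by
    intro a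
    by_cases h0 : (R V 0).eval a = 0
    · by_cases h1 : (R V 1).eval a = 0
      · have h4 : (R V 2).eval a ≠ 0 := by
          intro h4
          rw [eval_R] at h0 h1 h4
          rw [pow_zero, one_mul] at h0
          rw [pow_one] at h1
          exact h3 a ⟨h0, h1, h4⟩
        exact aux_even _ _ _ (R_ne V 0 hVne) (R_ne V 2 hVne) hk1 a h4
      · exact aux_even _ _ _ (R_ne V 0 hVne) (R_ne V 1 hVne) hk2 a h1
    · rw [rootMultiplicity_eq_zero h0]
      exact Even.zero
  -- the monic polynomial `V / 3`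
  set W : ℝ[X] := C (3⁻¹) * V with hW
  have hVW : V = C 3 * W := by
    rw [hW, ← mul_assoc, ← C_mul]; norm_num
  have hWm : W.Monic := by
    unfold Monic
    rw [hW, leadingCoeff_mul, leadingCoeff_C, hVl]; norm_num
  have hevW : ∀ a : ℂ, Even ((W.map (algebraMap ℝ ℂ)).rootMultiplicity a) := by
    intro a
    have e1 : R V 0 = C 3 * W.map (algebraMap ℝ ℂ) := by
      rw [R_zero, hVW, Polynomial.map_mul, map_C]; norm_num
    have h5 := hev a
    rw [e1, rootMultiplicity_mul (by rw [← e1]; exact R_ne V 0 hVne), rootMultiplicity_C, zero_add] at h5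
    exact h5
  obtain ⟨Qc, hQcm, hQc⟩ := sqrt_exists _ (hWm.map _) hevW
  obtain ⟨Q, hQm, _, hQW⟩ := real_of_sq W Qc hQcm hQc
  have hVQ : V = C 3 * Q ^ 2 := by rw [hVW, hQW]
  have hQ0 : Q.coeff 0 ^ 2 = 1 := by
    have := hVz
    rw [hVQ, coeff_C_mul, coeff_zero_eq_eval_zero, eval_pow, ← coeff_zero_eq_eval_zero] at this
    linarith
  refine ⟨Q, ⟨hQm, ?_, hQ0, ?_, ?_⟩, hVQ⟩
  · have : V.natDegree = 2 * Q.natDegree := by
      rw [hVQ, natDegree_C_mul (by norm_num), natDegree_pow]
    omega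
  · -- `k₂² = 9 (Q₀ Q₁)²`
    have eV : ∀ x : ℂ, aeval x V = 3 * aeval x Q ^ 2 := fun x => by
      rw [hVQ, map_mul, aeval_C, map_pow]; norm_num
    have hs : R k 2 ^ 2 = (C 3 * R Q 0 * R Q 1) ^ 2 := by
      rw [← hk2]
      apply Polynomial.funext
      intro x
      simp only [eval_mul, eval_pow, eval_R, pow_one, pow_zero, one_mul, eval_C, eV]
      ring
    have hs2 : R k 2 = C 3 * R Q 0 * R Q 1 := by
      rcases sq_eq_sq_iff_eq_or_eq_neg.mp hs with h6 | h6
      · exact h6
      · exfalso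
        have h7 := congrArg (fun q : ℂ[X] => q.eval 0) h6
        simp only [eval_mul, eval_neg, eval_R, eval_C, mul_zero] at h7
        have e0 : ∀ p : ℝ[X], aeval (0 : ℂ) p = (p.coeff 0 : ℂ) := fun p => by
          rw [← coeff_zero_eq_aeval_zero']
          rfl
        rw [e0, e0, hk0] at h7
        have h8 : ((Q.coeff 0 : ℂ)) * (Q.coeff 0 : ℂ) = 1 := by
          have := hQ0
          rw [pow_two] at this
          exact_mod_cast this
        rw [mul_assoc, h8] at h7
        norm_num at h7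
    intro x
    have h9 := congrArg (fun q : ℂ[X] => q.eval (om * x)) hs2
    simp only [eval_mul, eval_R, eval_C, pow_one, pow_zero, one_mul] at h9
    rw [rot2, rot, ek] at h9
    exact h9
  · intro x
    rw [h2 x, hVQ, map_mul, aeval_C, map_pow]
    norm_num
    ring

end W96CL
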